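import Pool.Agent.H89.FLT.S

/-!
# Row FBR: the flats of `Γ \ G / K` above a flat of `SL_n(ℤ) \ G / K`
-/

set_option autoImplicit false

open Matrix

namespace Pool.FLT

theorem fbr_mul_left {n : ℕ} (Γ : Subgroup (GZ n)) (δ : GZ n) (hδ : δ ∈ Γ) (g : GR n) :
    fl Γ (inc n δ * g) = fl Γ g := by
  unfold fl flB
  ext h
  constructor
  · rintro ⟨γ, hγ, x, hx, k, hk, rfl⟩
    refine ⟨γ * δ, Γ.mul_mem hγ hδ, x, hx, k, hk, ?_⟩
    rw [map_mul]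
    simp only [mul_assoc]
  · rintro ⟨γ, hγ, x, hx, k, hk, rfl⟩
    refine ⟨γ * δ⁻¹, Γ.mul_mem hγ (Γ.inv_mem hδ), x, hx, k, hk, ?_⟩
    rw [map_mul, map_inv]
    simp only [mul_assoc, inv_mul_cancel_left]

/-- the flat of a left coset `γ Γ`: the flat of `γ⁻¹ g0` -/
noncomputable def fbrF {n : ℕ} (Γ : Subgroup (GZ n)) (g0 : GR n) : GZ n ⧸ Γ → Set (GR n) :=
  Quotient.lift (fun γ : GZ n => fl Γ (inc n γ⁻¹ * g0)) (by
    intro a b hab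
    have h1 : a⁻¹ * b ∈ Γ := QuotientGroup.leftRel_apply.1 hab
    have h2 : a⁻¹ = (a⁻¹ * b) * b⁻¹ := by group
    show fl Γ (inc n a⁻¹ * g0) = fl Γ (inc n b⁻¹ * g0)
    calc fl Γ (inc n a⁻¹ * g0) = fl Γ (inc n (a⁻¹ * b) * (inc n b⁻¹ * g0)) := by
          rw [← mul_assoc, ← map_mul, ← h2]
      _ = fl Γ (inc n b⁻¹ * g0) := fbr_mul_left Γ _ h1 _)

/-- **FBR**. -/
theorem fbr (hE : EQFStmt) (hM : MFLStmt) : FBRStmt := by
  intro n hn Γ hΓ g0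
  have hfin : Finite (GZ n ⧸ Γ) := by
    have h0 : Nat.card (GZ n ⧸ Γ) ≠ 0 := by
      rw [← Subgroup.index_eq_card]
      exact hΓ
    exact (Nat.finite_of_card_ne_zero h0)
  have hsub : {F : Set (GR n) | ∃ g : GR n, F = fl Γ g ∧ fl ⊤ g = fl ⊤ g0} ⊆
      Set.range (fbrF Γ g0) := by
    rintro F ⟨g, rfl, hg⟩
    obtain ⟨γ, M, hMo, rfl⟩ := hE n hn g g0 hg
    refine ⟨((γ⁻¹ : GZ n) : GZ n ⧸ Γ), ?_⟩
    show fl Γ (inc n (γ⁻¹)⁻¹ * g0) = fl Γ (inc n γ * g0 * M)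
    rw [inv_inv, hM n Γ _ M hMo]
  have hr : (Set.range (fbrF Γ g0)).Finite := Set.finite_range _
  refine ⟨hr.subset hsub, ?_⟩
  calc {F : Set (GR n) | ∃ g : GR n, F = fl Γ g ∧ fl ⊤ g = fl ⊤ g0}.ncard
      ≤ (Set.range (fbrF Γ g0)).ncard := Set.ncard_le_ncard hsub hr
    _ ≤ Nat.card (GZ n ⧸ Γ) := by
        rw [← Set.image_univ, ← Set.ncard_univ]
        exact Set.ncard_image_le Set.finite_univ
    _ = Γ.index := (Subgroup.index_eq_card Γ).symm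

end Pool.FLT
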